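import Pool.Agent.H207.BT.Stm5
import Pool.Graph.R_seed8.H790R3.RB.TWR

/-!
# Project BT: the number of periodic points
-/

set_option autoImplicit false

open Topology Filter Metric Set MeasureTheory Polynomial

namespace Pool.Agent.H588.BT207

open Pool.Agent.H790R3.RB Pool.Agent.H211.HY Pool.Agent.H207.BT

variable {d : ℕ}

theorem it_diff (x : CV d) (n : ℕ) : Differentiable ℂ ((hF x)^[n]) := by
  have h := (hF_iter_differentiable d n).comp
    ((differentiable_const x).prodMk differentiable_id : Differentiable ℂ fun p : ℂ × ℂ => (x, id p))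
  exact h

theorem cr_fd (hd : 2 ≤ d) (x : CV d) (n : ℕ) (p v w : ℂ × ℂ) :
    cr (fderiv ℂ ((hF x)^[n]) p v) (fderiv ℂ ((hF x)^[n]) p w) =
      (∏ j ∈ Finset.range n, wr x ((hF x)^[j] p)) * cr v w := by
  induction n with
  | zero =>
    rw [Function.iterate_zero, fderiv_id]
    simp
  | succ n ih =>
    have hd1 : Differentiable ℂ (hF x) := it_diff x 1
    rw [Function.iterate_succ', fderiv_comp p (hd1 ((hF x)^[n] p)) (it_diff x n p)]
    have h := (WR d x (by omega)).2.2 ((hF x)^[n] p) (fderiv ℂ ((hF x)^[n]) p v)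
      (fderiv ℂ ((hF x)^[n]) p w)
    rw [ContinuousLinearMap.comp_apply, ContinuousLinearMap.comp_apply, h, ih,
      Finset.prod_range_succ]
    ring

theorem euler (x : CV d) (n : ℕ) (p : ℂ × ℂ) :
    fderiv ℂ ((hF x)^[n]) p p = ((d : ℂ) ^ n) • (hF x)^[n] p := by
  have h1 : HasDerivAt (fun a : ℂ => a • p) p 1 := by
    have := (hasDerivAt_id (1 : ℂ)).smul_const p
    simpa using this
  have h2 : HasFDerivAt ((hF x)^[n]) (fderiv ℂ ((hF x)^[n]) p) ((1 : ℂ) • p) := by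
    rw [one_smul]
    exact (it_diff x n p).hasFDerivAt
  have h3 := h2.comp_hasDerivAt (1 : ℂ) h1
  have h4 : HasDerivAt (fun a : ℂ => a ^ (d ^ n) • (hF x)^[n] p)
      ((((d ^ n : ℕ) : ℂ) * 1 ^ (d ^ n - 1)) • (hF x)^[n] p) 1 :=
    (hasDerivAt_pow (d ^ n) (1 : ℂ)).smul_const _
  have h5 : ((hF x)^[n] ∘ fun a : ℂ => a • p) = fun a : ℂ => a ^ (d ^ n) • (hF x)^[n] p := by
    funext a
    exact hF_iter_smul x n a p
  rw [h5] at h3
  have h6 := h3.unique h4
  rw [h6]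
  simp

theorem N2_pos {p : ℂ × ℂ} (hp : p ≠ 0) : 0 < N2 p := by
  unfold N2
  by_contra h
  have a1 := sq_nonneg ‖p.1‖
  have a2 := sq_nonneg ‖p.2‖
  have h1 : ‖p.1‖ ^ 2 = 0 := by linarith
  have h2 : ‖p.2‖ ^ 2 = 0 := by linarith
  apply hp
  ext
  · simpa using h1
  · simpa using h2

theorem N2_smul (a : ℂ) (p : ℂ × ℂ) : N2 (a • p) = ‖a‖ ^ 2 * N2 p := by
  unfold N2
  simp only [Prod.smul_fst, Prod.smul_snd, smul_eq_mul, norm_mul]
  ring

theorem sdn_eq (hd : 2 ≤ d) (x : CV d) (nd : ND x) (n : ℕ) {p : ℂ × ℂ} (hp : p ≠ 0) :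
    sdn x n p = ‖∏ j ∈ Finset.range n, wr x ((hF x)^[j] p)‖ * N2 p /
      ((d : ℝ) ^ n * N2 ((hF x)^[n] p)) := by
  have hd0 : (d : ℝ) ≠ 0 := by
    have : d ≠ 0 := by omega
    exact_mod_cast this
  induction n with
  | zero =>
    have := N2_pos hp
    unfold sdn
    simp [this.ne']
  | succ n ih =>
    have h1 : sdn x (n + 1) p = sdn x n p * sd x ((hF x)^[n] p) := by
      unfold sdn
      rw [Finset.prod_range_succ]
    have h2 : N2 ((hF x)^[n] p) ≠ 0 := (N2_pos (nd.iter_ne n hp)).ne'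
    have h3 : N2 ((hF x)^[n + 1] p) ≠ 0 := (N2_pos (nd.iter_ne (n + 1) hp)).ne'
    have h4 : hF x ((hF x)^[n] p) = (hF x)^[n + 1] p := (Function.iterate_succ_apply' _ _ _).symm
    rw [h1, ih]
    unfold sd
    rw [h4, Finset.prod_range_succ, norm_mul]
    field_simp
    ring

theorem mult (hd : 2 ≤ d) (x : CV d) (nd : ND x) (n : ℕ) {p e : ℂ × ℂ} (hp : p ≠ 0)
    (he : cr e p ≠ 0) (h0 : cr ((hF x)^[n] p) p = 0)
    (h1 : cr (fderiv ℂ ((hF x)^[n]) p e) p + cr ((hF x)^[n] p) e = 0) : sdn x n p = 1 := by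
  obtain ⟨a, ha, hap⟩ := (cr_eq_zero_iff (nd.iter_ne n hp) hp).1 h0
  have hdC : ((d : ℂ)) ^ n ≠ 0 := by
    have : (d : ℂ) ≠ 0 := by
      have : d ≠ 0 := by omega
      exact_mod_cast this
    exact pow_ne_zero _ this
  obtain ⟨W, hW⟩ : ∃ W, W = ∏ j ∈ Finset.range n, wr x ((hF x)^[j] p) := ⟨_, rfl⟩
  have h2 := cr_fd hd x n p e p
  rw [← hW, euler, hap, cr_smul_right, cr_smul_right] at h2
  have h3 : cr (fderiv ℂ ((hF x)^[n]) p e) p = a * cr e p := by
    rw [hap, cr_smul_left] at h1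
    have h4 : cr p e = - cr e p := cr_comm p e
    rw [h4] at h1
    linear_combination h1
  rw [h3] at h2
  have h5 : W = (d : ℂ) ^ n * a ^ 2 := by
    have : (W - (d : ℂ) ^ n * a ^ 2) * cr e p = 0 := by linear_combination -h2
    rcases mul_eq_zero.1 this with h | h
    · exact sub_eq_zero.1 h
    · exact absurd h he
  rw [sdn_eq hd x nd n hp, ← hW, h5, hap, N2_smul, norm_mul, norm_pow, norm_pow,
    Complex.norm_natCast]
  have hd0 : (d : ℝ) ≠ 0 := by
    have : d ≠ 0 := by omega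
    exact_mod_cast this
  have ha' : ‖a‖ ≠ 0 := norm_ne_zero_iff.2 ha
  have hN := (N2_pos hp).ne'
  rw [mul_assoc, div_self]
  exact mul_ne_zero (pow_ne_zero _ hd0) (mul_ne_zero (pow_ne_zero _ ha') hN)

/-- derivative along a curve -/
theorem der_cr (x : CV d) (n : ℕ) (c : ℂ → ℂ × ℂ) (e : ℂ × ℂ) (z : ℂ) (hc : HasDerivAt c e z) :
    HasDerivAt (fun ζ => cr ((hF x)^[n] (c ζ)) (c ζ))
      (cr (fderiv ℂ ((hF x)^[n]) (c z) e) (c z) + cr ((hF x)^[n] (c z)) e) z := by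
  have h1 : HasDerivAt (fun ζ => (hF x)^[n] (c ζ)) (fderiv ℂ ((hF x)^[n]) (c z) e) z :=
    (it_diff x n (c z)).hasFDerivAt.comp_hasDerivAt z hc
  have f1 : HasDerivAt (fun ζ => ((hF x)^[n] (c ζ)).1) (fderiv ℂ ((hF x)^[n]) (c z) e).1 z :=
    (ContinuousLinearMap.fst ℂ ℂ ℂ).hasFDerivAt.comp_hasDerivAt z h1
  have f2 : HasDerivAt (fun ζ => ((hF x)^[n] (c ζ)).2) (fderiv ℂ ((hF x)^[n]) (c z) e).2 z :=
    (ContinuousLinearMap.snd ℂ ℂ ℂ).hasFDerivAt.comp_hasDerivAt z h1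
  have g1 : HasDerivAt (fun ζ => (c ζ).1) e.1 z :=
    (ContinuousLinearMap.fst ℂ ℂ ℂ).hasFDerivAt.comp_hasDerivAt z hc
  have g2 : HasDerivAt (fun ζ => (c ζ).2) e.2 z :=
    (ContinuousLinearMap.snd ℂ ℂ ℂ).hasFDerivAt.comp_hasDerivAt z hc
  have h := (f1.mul g2).sub (f2.mul g1)
  refine h.congr_deriv ?_
  unfold cr
  ring

/-- the iterates in the affine coordinate, as polynomials -/
noncomputable def pq (x : CV d) : ℕ → ℂ[X] × ℂ[X]
  | 0 => (X, 1)
  | n + 1 => (∑ j : Fin (d + 1), C (x (0, j)) * ((pq x n).1 ^ (j : ℕ) * (pq x n).2 ^ (d - (j : ℕ))),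
      ∑ j : Fin (d + 1), C (x (1, j)) * ((pq x n).1 ^ (j : ℕ) * (pq x n).2 ^ (d - (j : ℕ))))

theorem pq_eval (x : CV d) (n : ℕ) (ζ : ℂ) :
    ((pq x n).1.eval ζ, (pq x n).2.eval ζ) = (hF x)^[n] (ζ, 1) := by
  induction n with
  | zero => simp [pq]
  | succ n ih =>
    rw [Function.iterate_succ_apply', ← ih]
    simp only [pq, hF, eval_finsetSum, eval_mul, eval_C, eval_pow]

theorem pq_deg (x : CV d) (n : ℕ) : (pq x n).1.natDegree ≤ d ^ n ∧ (pq x n).2.natDegree ≤ d ^ n := by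
  induction n with
  | zero => simp [pq]
  | succ n ih =>
    have h : ∀ i : Fin 2, (∑ j : Fin (d + 1), C (x (i, j)) *
        ((pq x n).1 ^ (j : ℕ) * (pq x n).2 ^ (d - (j : ℕ)))).natDegree ≤ d ^ (n + 1) := by
      intro i
      refine natDegree_sum_le_of_forall_le _ _ fun j _ => ?_
      refine (natDegree_C_mul_le _ _).trans ?_
      have h1 : ((pq x n).1 ^ (j : ℕ)).natDegree ≤ (j : ℕ) * d ^ n :=
        natDegree_pow_le_of_le _ ih.1
      have h2 : ((pq x n).2 ^ (d - (j : ℕ))).natDegree ≤ (d - (j : ℕ)) * d ^ n :=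
        natDegree_pow_le_of_le _ ih.2
      refine (natDegree_mul_le_of_le h1 h2).trans ?_
      rw [← Nat.add_mul, pow_succ, Nat.mul_comm (d ^ n) d]
      have := j.2
      exact Nat.mul_le_mul_right _ (by omega)
    exact ⟨h 0, h 1⟩

/-- the polynomial whose roots are the periodic points -/
noncomputable def AA (x : CV d) (n : ℕ) : ℂ[X] := (pq x n).1 - X * (pq x n).2

theorem AA_eval (x : CV d) (n : ℕ) (ζ : ℂ) :
    (AA x n).eval ζ = cr ((hF x)^[n] (ζ, 1)) (ζ, 1) := by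
  rw [← pq_eval]
  unfold AA cr
  simp only [eval_sub, eval_mul, eval_X]
  ring

theorem AA_deg (x : CV d) (n : ℕ) : (AA x n).natDegree ≤ d ^ n + 1 := by
  refine (natDegree_sub_le _ _).trans (max_le ((pq_deg x n).1.trans (Nat.le_succ _)) ?_)
  refine (natDegree_mul_le_of_le natDegree_X_le (pq_deg x n).2).trans ?_
  omega

theorem inf_eval (x : CV d) (n : ℕ) (ζ : ℂ) :
    cr ((hF x)^[n] (1, ζ)) (1, ζ) = ((AA x n).reflect (d ^ n + 1)).eval ζ := by
  have hne : ∀ ζ : ℂ, ζ ≠ 0 →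
      cr ((hF x)^[n] (1, ζ)) (1, ζ) = ((AA x n).reflect (d ^ n + 1)).eval ζ := by
    intro ζ hζ
    have e1 : ((1 : ℂ), ζ) = ζ • (ζ⁻¹, (1 : ℂ)) := by
      ext
      · simp [hζ]
      · simp
    rw [e1, hF_iter_smul, cr_smul_left, cr_smul_right, ← AA_eval]
    have hinv : ζ⁻¹ ≠ 0 := inv_ne_zero hζ
    let _ : Invertible (ζ⁻¹) := invertibleOfNonzero hinv
    have h2 := eval₂_reflect_mul_pow (RingHom.id ℂ) (ζ⁻¹) (d ^ n + 1) (AA x n) (AA_deg x n)
    rw [invOf_eq_inv, inv_inv] at h2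
    rw [← eval₂_id (p := AA x n), ← h2, eval₂_id]
    have h3 : (ζ⁻¹) ^ (d ^ n + 1) * (ζ ^ d ^ n * ζ) = 1 := by
      rw [← pow_succ, ← mul_pow, inv_mul_cancel₀ hζ, one_pow]
    calc ζ ^ d ^ n * (ζ * (eval ζ (reflect (d ^ n + 1) (AA x n)) * ζ⁻¹ ^ (d ^ n + 1)))
        = eval ζ (reflect (d ^ n + 1) (AA x n)) * ((ζ⁻¹) ^ (d ^ n + 1) * (ζ ^ d ^ n * ζ)) := by ring
      _ = _ := by rw [h3, mul_one]
  have hc1 : Continuous fun ζ : ℂ => cr ((hF x)^[n] (1, ζ)) (1, ζ) := by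
    have h1 : Continuous fun ζ : ℂ => (hF x)^[n] (1, ζ) :=
      (it_diff x n).continuous.comp (by fun_prop)
    unfold cr
    fun_prop
  have hc2 : Continuous fun ζ : ℂ => ((AA x n).reflect (d ^ n + 1)).eval ζ := Polynomial.continuous _
  have hd : Dense {ζ : ℂ | ζ ≠ 0} := dense_compl_singleton (0 : ℂ)
  have := Continuous.ext_on hd hc1 hc2 (fun ζ hζ => hne ζ hζ)
  exact congrFun this ζ

theorem t_CNT : Pool.Agent.H207.BT.S_CNT := by
  classical
  intro d x hd nd hrep n hn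
  -- simple roots
  have hsim : ∀ ξ : ℂ, (AA x n).IsRoot ξ → ¬ (derivative (AA x n)).IsRoot ξ := by
    intro ξ h1 h2
    have hc : HasDerivAt (fun ζ : ℂ => (ζ, (1 : ℂ))) ((1 : ℂ), (0 : ℂ)) ξ :=
      (hasDerivAt_id ξ).prodMk (hasDerivAt_const ξ (1 : ℂ))
    have h3 := der_cr x n (fun ζ : ℂ => (ζ, (1 : ℂ))) _ ξ hc
    have h4 : HasDerivAt (fun ζ => (AA x n).eval ζ) ((derivative (AA x n)).eval ξ) ξ :=
      (AA x n).hasDerivAt ξ
    have h5 : (fun ζ => (AA x n).eval ζ) = fun ζ => cr ((hF x)^[n] (ζ, 1)) (ζ, 1) :=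
      funext fun ζ => AA_eval x n ζ
    rw [h5] at h4
    have h6 := h3.unique h4
    have h7 : (derivative (AA x n)).eval ξ = 0 := h2
    have h8 : cr ((hF x)^[n] (ξ, 1)) (ξ, 1) = 0 := by rw [← AA_eval]; exact h1
    have hp : ((ξ, (1 : ℂ)) : ℂ × ℂ) ≠ 0 := by
      intro h
      exact one_ne_zero (congrArg Prod.snd h)
    have h9 := mult hd x nd n (p := (ξ, 1)) (e := (1, 0)) hp (by unfold cr; simp) h8
      (h6.trans h7)
    have h10 := hrep (ξ, 1) n hp hn h8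
    linarith
  -- the degree
  have hdeg : d ^ n ≤ (AA x n).natDegree := by
    by_cases hD : (AA x n).coeff (d ^ n + 1) = 0
    · by_cases hD' : (AA x n).coeff (d ^ n) = 0
      · exfalso
        have hc : HasDerivAt (fun ζ : ℂ => ((1 : ℂ), ζ)) ((0 : ℂ), (1 : ℂ)) 0 :=
          (hasDerivAt_const (0 : ℂ) (1 : ℂ)).prodMk (hasDerivAt_id (0 : ℂ))
        have h3 := der_cr x n (fun ζ : ℂ => ((1 : ℂ), ζ)) _ 0 hc
        have h4 : HasDerivAt (fun ζ => ((AA x n).reflect (d ^ n + 1)).eval ζ)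
            ((derivative ((AA x n).reflect (d ^ n + 1))).eval 0) 0 :=
          ((AA x n).reflect (d ^ n + 1)).hasDerivAt 0
        have h5 : (fun ζ => ((AA x n).reflect (d ^ n + 1)).eval ζ) =
            fun ζ => cr ((hF x)^[n] (1, ζ)) (1, ζ) := funext fun ζ => (inf_eval x n ζ).symm
        rw [h5] at h4
        have h6 := h3.unique h4
        have h7 : (derivative ((AA x n).reflect (d ^ n + 1))).eval 0 = 0 := by
          rw [← coeff_zero_eq_eval_zero, coeff_derivative, coeff_reflect, revAt_le (by omega)]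
          simp [hD']
        have h8 : cr ((hF x)^[n] (1, 0)) (1, 0) = 0 := by
          rw [inf_eval, ← coeff_zero_eq_eval_zero, coeff_reflect, revAt_le (by omega)]
          simp [hD]
        have hp : (((1 : ℂ), (0 : ℂ)) : ℂ × ℂ) ≠ 0 := by
          intro h
          exact one_ne_zero (congrArg Prod.fst h)
        have h9 := mult hd x nd n (p := (1, 0)) (e := (0, 1)) hp (by unfold cr; simp) h8
          (h6.trans h7)
        have h10 := hrep (1, 0) n hp hn h8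
        linarith
      · exact le_natDegree_of_ne_zero hD'
    · exact (Nat.le_succ _).trans (le_natDegree_of_ne_zero hD)
  have hA0 : AA x n ≠ 0 := by
    intro h
    rw [h, natDegree_zero] at hdeg
    have : 0 < d ^ n := pow_pos (by omega) n
    omega
  refine ⟨(AA x n).roots.toFinset, ?_, ?_⟩
  · have hnd : (AA x n).roots.Nodup := by
      rw [Multiset.nodup_iff_count_le_one]
      intro ξ
      rw [count_roots]
      by_contra hh
      have h1 := (one_lt_rootMultiplicity_iff_isRoot hA0).1 (not_le.1 hh)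
      exact hsim ξ h1.1 h1.2
    rw [Multiset.toFinset_card_of_nodup hnd, splits_iff_card_roots.1 (IsAlgClosed.splits _)]
    exact hdeg
  · intro ξ hξ
    rw [Multiset.mem_toFinset, mem_roots hA0] at hξ
    rw [← AA_eval]
    exact hξ

end Pool.Agent.H588.BT207
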